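import Pool.Agent.Lib.MP_f7b195_co.Pattern

/-!
# The patterns for all `n ≥ 3` and their weights
-/

set_option autoImplicit false

open Finset

namespace Pool.Agent.Lib.MP_f7b195_co

/-- the defect `δ_n(i,j)` -/
def del (n : ℕ) : ℕ → ℕ → ℤ :=
  if n ≤ 5 then strip n else comb (n / 2) (n - n / 2) (del (n - n / 2)) (del (n / 2))
termination_by n
decreasing_by all_goals omega

theorem pat_del (n : ℕ) (hn : 3 ≤ n) : Pat n (del n) := by
  induction n using Nat.strong_induction_on with
  | _ n ih =>
    rw [del]
    split_ifs with h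
    · exact pat_strip n hn
    · have h1 := ih (n - n / 2) (by omega) (by omega)
      have h2 := ih (n / 2) (by omega) (by omega)
      have h3 := pat_comb (m := n / 2) (p := n - n / 2) (by omega) (by omega) h1 h2
      have h4 : n / 2 + (n - n / 2) = n := by omega
      rwa [h4] at h3

/-- the number of halvings -/
def dep (n : ℕ) : ℕ := if n ≤ 5 then 0 else dep (n / 2) + 1
termination_by n
decreasing_by omega

/-- the weight of a line -/
def wt (n : ℕ) (x : ℕ) : ℕ :=
  if n ≤ 5 then (if x = 0 then 1 else 0)
  else 2 * wt (n / 2) x + (if n / 2 ≤ x then wt (n / 2) (x - n / 2) else 0)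
termination_by n
decreasing_by all_goals omega

theorem sum_shift (h : ℕ → ℕ) (e R : ℕ) :
    ∑ i ∈ range R, (if e ≤ i then h (i - e) else 0) ≤ ∑ x ∈ range R, h x := by
  rcases Nat.lt_or_ge R e with h1 | h1
  · rw [Finset.sum_eq_zero]
    · exact Nat.zero_le _
    · intro i hi
      rw [mem_range] at hi
      rw [if_neg (by omega)]
  · obtain ⟨q, rfl⟩ := Nat.exists_eq_add_of_le h1
    rw [Finset.sum_range_add]
    have h2 : ∑ i ∈ range e, (if e ≤ i then h (i - e) else 0) = 0 := by
      apply Finset.sum_eq_zero
      intro i hi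
      rw [mem_range] at hi
      rw [if_neg (by omega)]
    have h3 : ∑ i ∈ range q, (if e ≤ e + i then h (e + i - e) else 0) = ∑ i ∈ range q, h i := by
      refine Finset.sum_congr rfl (fun i _ => ?_)
      rw [if_pos (by omega), Nat.add_sub_cancel_left]
    rw [h2, h3, zero_add]
    exact Finset.sum_le_sum_of_subset (Finset.range_mono (by omega))

theorem sum_wt (n R : ℕ) : ∑ x ∈ range R, wt n x ≤ 3 ^ dep n := by
  induction n using Nat.strong_induction_on generalizing R with
  | _ n ih =>
    by_cases h : n ≤ 5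
    · have h1 : ∀ x, wt n x = if x = 0 then 1 else 0 := fun x => by rw [wt, if_pos h]
      have h2 : dep n = 0 := by rw [dep, if_pos h]
      rw [h2, Finset.sum_congr rfl (fun x _ => h1 x), Finset.sum_ite_eq']
      split_ifs <;> norm_num
    · have h1 : ∀ x, wt n x = 2 * wt (n / 2) x + (if n / 2 ≤ x then wt (n / 2) (x - n / 2) else 0) :=
        fun x => by rw [wt, if_neg h]
      have h2 : dep n = dep (n / 2) + 1 := by rw [dep, if_neg h]
      rw [h2, Finset.sum_congr rfl (fun x _ => h1 x), Finset.sum_add_distrib, ← Finset.mul_sum,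
        pow_succ]
      have h3 := ih (n / 2) (by omega) R
      have h4 := sum_shift (wt (n / 2)) (n / 2) R
      omega

/-- the covering property -/
def Cov (N n : ℕ) : Prop :=
  ∀ i j, 0 < del n i j → ∃ x y z : ℕ,
    4 ^ dep N ≤ wt N x * wt N y * wt N z ∧
    x ≤ i ∧ i ≤ x + (dep N + 5) ∧ y ≤ j ∧ j ≤ y + (dep N + 5) ∧
    (z : ℤ) ≤ n - (i + j + del n i j) ∧ (n : ℤ) - (i + j + del n i j) ≤ z + (dep N + 5) ∧
    del n i j ≤ 6

theorem pos_bound (n : ℕ) (hn : 3 ≤ n) (i j : ℕ) (h : 0 < del n i j) :
    (i : ℤ) + j + del n i j ≤ n := by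
  have hp := pat_del n hn
  have h1 : i + j ≤ n := by
    by_contra h2
    rw [hp.z i j (by omega)] at h
    omega
  rcases Nat.eq_zero_or_pos i with h2 | h2
  · subst h2
    rcases Nat.lt_or_ge j n with h3 | h3
    · have := hp.r0 j h3
      push_cast
      omega
    · have h4 : j = n := by omega
      rw [h4, hp.corner_col (by omega)] at h
      omega
  · have := hp.r i j h2 h1
    omega

theorem cov (N n : ℕ) (hN : 3 ≤ N) (hn : n = N ∨ n = N + 1) : Cov N n := by
  induction N using Nat.strong_induction_on generalizing n with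
  | _ N ih =>
    intro i j hpos
    have hb := pos_bound n (by omega) i j hpos
    by_cases h : N ≤ 5
    · refine ⟨0, 0, 0, ?_, ?_⟩
      · rw [dep, if_pos h, wt, if_pos h]
        norm_num
      · have : dep N = 0 := by rw [dep, if_pos h]
        rw [this]
        push_cast
        omega
    · have hdep : dep N = dep (N / 2) + 1 := by rw [dep, if_neg h]
      have hwt : ∀ x, wt N x = 2 * wt (N / 2) x +
          (if N / 2 ≤ x then wt (N / 2) (x - N / 2) else 0) := fun x => by rw [wt, if_neg h]
      have hw1 : ∀ x, 2 * wt (N / 2) x ≤ wt N x := fun x => by rw [hwt]; omega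
      have hw2 : ∀ x, wt (N / 2) x ≤ wt N (x + N / 2) := fun x => by
        rw [hwt, if_pos (by omega), Nat.add_sub_cancel]
        omega
      have hpm : ∀ x y z : ℕ, 4 ^ dep (N / 2) ≤ wt (N / 2) x * wt (N / 2) y * wt (N / 2) z →
          4 ^ dep N ≤ (2 * wt (N / 2) x) * (2 * wt (N / 2) y) * wt (N / 2) z := by
        intro x y z hxyz
        rw [hdep, pow_succ]
        nlinarith
      have hrec : del n = comb (n / 2) (n - n / 2) (del (n - n / 2)) (del (n / 2)) := by
        rw [del, if_neg (by omega)]
      set m := n / 2 with hm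
      set p := n - n / 2 with hp
      set M := N / 2 with hM
      have hmM : m = M ∨ m = M + 1 := by omega
      have hpM : p = M ∨ p = M + 1 := by omega
      have hpm' : p = m ∨ p = m + 1 := by omega
      have hnmp : (n : ℤ) = m + p := by omega
      have ha := pat_del p (by omega)
      have hbb := pat_del m (by omega)
      rw [hrec] at hpos hb ⊢
      rcases Nat.lt_or_ge i p with hi | hi <;> rcases Nat.lt_or_ge j m with hj | hj
      · rw [comb_a i j hi hj] at hpos hb ⊢
        obtain ⟨x, y, z, h1, h2, h3, h4, h5, h6, h7, h8⟩ :=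
          ih M (by omega) p (by omega) hpM i j hpos
        refine ⟨x, y, z + M, ?_, h2, by omega, h4, by omega, by push_cast; omega,
          by push_cast; omega, h8⟩
        refine le_trans (hpm x y z h1) ?_
        exact Nat.mul_le_mul (Nat.mul_le_mul (hw1 x) (hw1 y)) (hw2 z)
      · rw [comb_c (by omega) hpm' ha i j hi hj] at hpos hb ⊢
        have h0 : ¬ (p = m + 1 ∧ i = 0 ∧ j = m) := by
          intro h9
          rw [if_pos h9, h9.2.1, h9.2.2, Nat.sub_self, ha.u] at hpos
          omega
        rw [if_neg h0, sub_zero] at hpos hb ⊢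
        obtain ⟨x, y, z, h1, h2, h3, h4, h5, h6, h7, h8⟩ :=
          ih M (by omega) p (by omega) hpM i (j - m) hpos
        rw [Nat.cast_sub hj] at h6 h7
        refine ⟨x, y + M, z, ?_, h2, by omega, by omega, by omega, by omega, by omega, h8⟩
        have h10 : wt M x * wt M y * wt M z = wt M x * wt M z * wt M y := by ring
        refine le_trans (hpm x z y (h10 ▸ h1)) ?_
        have h9 : 2 * wt M x * (2 * wt M z) * wt M y = 2 * wt M x * wt M y * (2 * wt M z) := by ring
        rw [h9]
        exact Nat.mul_le_mul (Nat.mul_le_mul (hw1 x) (hw2 y)) (hw1 z)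
      · rw [comb_b ha (by omega) i j hi hj] at hpos hb ⊢
        obtain ⟨x, y, z, h1, h2, h3, h4, h5, h6, h7, h8⟩ :=
          ih M (by omega) m (by omega) hmM (i - p) j hpos
        rw [Nat.cast_sub hi] at h6 h7
        refine ⟨x + M, y, z, ?_, by omega, by omega, h4, by omega, by omega, by omega, h8⟩
        have h10 : wt M x * wt M y * wt M z = wt M z * wt M y * wt M x := by ring
        refine le_trans (hpm z y x (h10 ▸ h1)) ?_
        have h9 : 2 * wt M z * (2 * wt M y) * wt M x = wt M x * (2 * wt M y) * (2 * wt M z) := by ring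
        rw [h9]
        exact Nat.mul_le_mul (Nat.mul_le_mul (hw2 x) (hw1 y)) (hw1 z)
      · rw [comb_d (by omega) hpm' ha hbb i j hi hj] at hpos
        exfalso
        split_ifs at hpos <;> omega

end Pool.Agent.Lib.MP_f7b195_co
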