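import Mathlib

/-!
# Dissection patterns of an equilateral triangle of side `n`, for every `n`

`Pat n f`: the function `f` describes a dissection of a triangle of side `n` into smaller triangles (a Latin trade in
the Cayley table of `ℤ/n`). Two triangles of side `p` and one of side `m`, `p = m` or `p = m + 1`, and a hole of side
`m` give a triangle of side `m + p`; for `p = m + 1` the triangles of side `p` overlap in a unit triangle.
-/

set_option autoImplicit false

namespace Pool.Agent.Lib.MP_f7b195_co

/-- dissection pattern of a triangle of side `n` -/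
structure Pat (n : ℕ) (f : ℕ → ℕ → ℤ) : Prop where
  z : ∀ i j, n < i + j → f i j = 0
  u : f 0 0 = 1
  v : f 0 (n - 1) = 0
  r0 : ∀ j, j < n → 0 < (j : ℤ) + f 0 j ∧ (j : ℤ) + f 0 j ≤ n
  r0i : ∀ j j', j < n → j' < n → (j : ℤ) + f 0 j = j' + f 0 j' → j = j'
  r : ∀ i j, 1 ≤ i → i + j ≤ n → 0 ≤ (j : ℤ) + f i j ∧ (i : ℤ) + (j + f i j) ≤ n
  ri : ∀ i j j', 1 ≤ i → i + j ≤ n → i + j' ≤ n → (j : ℤ) + f i j = j' + f i j' → j = j'
  c0 : ∀ i, i < n → 0 < (i : ℤ) + f i 0 ∧ (i : ℤ) + f i 0 ≤ n
  c0i : ∀ i i', i < n → i' < n → (i : ℤ) + f i 0 = i' + f i' 0 → i = i'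
  c : ∀ j i, 1 ≤ j → i + j ≤ n → 0 ≤ (i : ℤ) + f i j ∧ (j : ℤ) + (i + f i j) ≤ n
  ci : ∀ j i i', 1 ≤ j → i + j ≤ n → i' + j ≤ n → (i : ℤ) + f i j = i' + f i' j → i = i'

namespace Pat

variable {n : ℕ} {f : ℕ → ℕ → ℤ}

theorem corner_col (h : Pat n f) (hn : 1 ≤ n) : f 0 n = 0 := by
  have := h.c n 0 hn (by omega)
  omega

theorem corner_row (h : Pat n f) (hn : 1 ≤ n) : f n 0 = 0 := by
  have := h.r n 0 hn (by omega)
  omega

theorem one_pred (h : Pat n f) (hn : 2 ≤ n) : f 1 (n - 1) = 0 := by
  have h1 := h.c (n - 1) 1 (by omega) (by omega)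
  have h2 := h.ci (n - 1) 1 0 (by omega) (by omega) (by omega)
  have h3 := h.v
  rw [h3] at h2
  by_contra h4
  have h5 : ((1 : ℕ) : ℤ) + f 1 (n - 1) = ((0 : ℕ) : ℤ) + 0 := by
    have : (((n - 1 : ℕ)) : ℤ) = n - 1 := by
      rw [Nat.cast_sub (by omega)]
      norm_num
    push_cast at h1 ⊢
    omega
  have := h2 h5
  omega

end Pat

/-- the strip of unit triangles along the first column and one triangle of side `n - 1` -/
def strip (n i j : ℕ) : ℤ :=
  if j = 0 ∧ i < n then 1 else if j = 1 ∧ i = 0 then (n : ℤ) - 1
  else if j = 1 ∧ i < n then -1 else 0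

theorem pat_strip (n : ℕ) (hn : 3 ≤ n) : Pat n (strip n) := by
  constructor
  · intro i j h
    unfold strip
    split_ifs <;> omega
  · unfold strip
    split_ifs <;> omega
  · unfold strip
    split_ifs <;> omega
  · intro j h
    unfold strip
    split_ifs <;> omega
  · intro j j' h h'
    unfold strip
    split_ifs <;> omega
  · intro i j h h'
    unfold strip
    split_ifs <;> omega
  · intro i j j' h h1 h2
    unfold strip
    split_ifs <;> omega
  · intro i h
    unfold strip
    split_ifs <;> omega
  · intro i i' h h'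
    unfold strip
    split_ifs <;> omega
  · intro j i h h'
    unfold strip
    split_ifs <;> omega
  · intro j i i' h h1 h2
    unfold strip
    split_ifs <;> omega

/-- two triangles `a` of side `p`, one triangle `b` of side `m`, a hole of side `m` -/
def comb (m p : ℕ) (a b : ℕ → ℕ → ℤ) (i j : ℕ) : ℤ :=
  a i j + (if p ≤ i then b (i - p) j else 0) + (if m ≤ j then a i (j - m) else 0)
    - (if i = p ∧ j = m then (m : ℤ) else 0) - (if p = m + 1 ∧ i = 0 ∧ j = m then 1 else 0)

section comb

variable {m p : ℕ} {a b : ℕ → ℕ → ℤ}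

theorem comb_a (i j : ℕ) (hi : i < p) (hj : j < m) : comb m p a b i j = a i j := by
  unfold comb
  rw [if_neg (by omega), if_neg (by omega), if_neg (by omega), if_neg (by omega)]
  ring

theorem comb_b (ha : Pat p a) (hp : 1 ≤ p) (i j : ℕ) (hi : p ≤ i) (hj : j < m) :
    comb m p a b i j = b (i - p) j := by
  have h1 : a i j = 0 := by
    by_cases h : p < i + j
    · exact ha.z i j h
    · have h2 : i = p := by omega
      have h3 : j = 0 := by omega
      rw [h2, h3]
      exact ha.corner_row hp
  unfold comb
  rw [if_pos hi, if_neg (by omega), if_neg (by omega), if_neg (by omega), h1]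
  ring

theorem comb_c (hm : 2 ≤ m) (hp : p = m ∨ p = m + 1) (ha : Pat p a) (i j : ℕ) (hi : i < p)
    (hj : m ≤ j) :
    comb m p a b i j = a i (j - m) - (if p = m + 1 ∧ i = 0 ∧ j = m then 1 else 0) := by
  have h1 : a i j = 0 := by
    by_cases h : p < i + j
    · exact ha.z i j h
    · rcases hp with hp | hp
      · have h2 : i = 0 := by omega
        have h3 : j = p := by omega
        rw [h2, h3]
        exact ha.corner_col (by omega)
      · by_cases h4 : i = 1
        · have h3 : j = p - 1 := by omega
          rw [h4, h3]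
          exact ha.one_pred (by omega)
        · have h5 : i = 0 := by omega
          by_cases h6 : j = p
          · rw [h5, h6]
            exact ha.corner_col (by omega)
          · have h7 : j = p - 1 := by omega
            rw [h5, h7]
            exact ha.v
  unfold comb
  rw [if_neg (by omega), if_pos hj, if_neg (by omega : ¬ (i = p ∧ j = m)), h1]
  ring

theorem comb_d (hm : 2 ≤ m) (hp : p = m ∨ p = m + 1) (ha : Pat p a) (hb : Pat m b) (i j : ℕ)
    (hi : p ≤ i) (hj : m ≤ j) :
    comb m p a b i j = - (if i = p ∧ j = m then (m : ℤ) else 0) := by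
  have h1 : a i j = 0 := ha.z i j (by omega)
  have h2 : b (i - p) j = 0 := by
    by_cases h : m < (i - p) + j
    · exact hb.z _ _ h
    · have h3 : i - p = 0 := by omega
      have h4 : j = m := by omega
      rw [h3, h4]
      exact hb.corner_col (by omega)
  have h5 : a i (j - m) = 0 := by
    by_cases h : p < i + (j - m)
    · exact ha.z _ _ h
    · have h3 : j - m = 0 := by omega
      have h4 : i = p := by omega
      rw [h3, h4]
      exact ha.corner_row (by omega)
  unfold comb
  rw [if_pos hi, if_pos hj, if_neg (by omega : ¬ (p = m + 1 ∧ i = 0 ∧ j = m)), h1, h2, h5]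
  ring

theorem row_zero (ha : Pat p a) (hp : p = m ∨ p = m + 1) (j : ℕ) (hj : j < m) :
    0 < (j : ℤ) + a 0 j ∧ (j : ℤ) + a 0 j ≤ p ∧ (p = m + 1 → (j : ℤ) + a 0 j ≠ m) := by
  have h1 := ha.r0 j (by omega)
  refine ⟨h1.1, h1.2, ?_⟩
  intro h2 h3
  have h4 := ha.v
  rw [h2] at h4
  have h5 := ha.r0i j m (by omega) (by omega) (by rw [h3]; simpa using h4)
  omega

theorem row_pos (ha : Pat p a) (hp : p = m ∨ p = m + 1) (hm : 3 ≤ m) (i j : ℕ) (hi : 1 ≤ i)
    (hj : j < m) :
    0 ≤ (j : ℤ) + a i j ∧ (j : ℤ) + a i j < m := by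
  by_cases h0 : p < i + j
  · rw [ha.z i j h0]
    omega
  · have h1 := ha.r i j hi (by omega)
    refine ⟨h1.1, ?_⟩
    rcases hp with hp | hp
    · omega
    · by_contra h2
      have h3 : i = 1 := by omega
      have h4 := ha.one_pred (by omega)
      rw [hp] at h4
      have h5 := ha.ri 1 j m (by omega) (by omega) (by omega) (by
        have h6 : a 1 m = 0 := by simpa using h4
        rw [h6]
        rw [h3] at h1 h2
        omega)
      omega

theorem col_one (ha : Pat p a) (i : ℕ) (hi : i < p) (h : (i : ℤ) + a i 0 = 1) : i = 0 := by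
  apply ha.c0i i 0 hi (by omega)
  rw [h, ha.u]
  norm_num

theorem row_one (ha : Pat p a) (j : ℕ) (hj : j < p) (h : (j : ℤ) + a 0 j = 1) : j = 0 := by
  apply ha.r0i j 0 hj (by omega)
  rw [h, ha.u]
  norm_num

/-- the values of row `0` on the second half -/
theorem comb_row_zero (hm : 3 ≤ m) (hp : p = m ∨ p = m + 1) (ha : Pat p a) (t : ℕ) (ht : t < p) :
    ((m + t : ℕ) : ℤ) + comb m p a b 0 (m + t) =
      m + (t + a 0 t) - (if p = m + 1 ∧ t = 0 then 1 else 0) := by
  rw [comb_c (by omega) hp ha 0 (m + t) (by omega) (by omega), Nat.add_sub_cancel_left,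
    Nat.cast_add]
  split_ifs <;> omega

theorem comb_row_pos (hm : 3 ≤ m) (hp : p = m ∨ p = m + 1) (ha : Pat p a) (i t : ℕ) (hi : 1 ≤ i)
    (hi' : i < p) :
    ((m + t : ℕ) : ℤ) + comb m p a b i (m + t) = m + (t + a i t) := by
  rw [comb_c (by omega) hp ha i (m + t) hi' (by omega), Nat.add_sub_cancel_left,
    if_neg (by omega)]
  push_cast
  ring

theorem comb_row_p (hm : 3 ≤ m) (hp : p = m ∨ p = m + 1) (ha : Pat p a) (hb : Pat m b) (j : ℕ)
    (hj : j ≤ m) :
    (j < m ∧ comb m p a b p j = b 0 j) ∨ (j = m ∧ comb m p a b p j = - (m : ℤ)) := by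
  rcases Nat.lt_or_ge j m with h | h
  · left
    refine ⟨h, ?_⟩
    rw [comb_b ha (by omega) p j (le_refl p) h, Nat.sub_self]
  · right
    have h1 : j = m := by omega
    refine ⟨h1, ?_⟩
    rw [comb_d (by omega) hp ha hb p j (le_refl p) h, if_pos ⟨rfl, h1⟩]

theorem comb_row_gt (hm : 3 ≤ m) (hp : p = m ∨ p = m + 1) (ha : Pat p a) (i j : ℕ)
    (hi : p < i) (hj : i + j ≤ m + p) : comb m p a b i j = b (i - p) j :=
  comb_b ha (by omega) i j (by omega) (by omega)

theorem comb_col_gt (hm : 3 ≤ m) (hp : p = m ∨ p = m + 1) (ha : Pat p a) (i j : ℕ)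
    (hj : m < j) (hi : i + j ≤ m + p) : comb m p a b i j = a i (j - m) := by
  rw [comb_c (by omega) hp ha i j (by omega) (by omega), if_neg (by omega)]
  ring

/-- column `m` -/
theorem comb_col_m (hm : 3 ≤ m) (hp : p = m ∨ p = m + 1) (ha : Pat p a) (hb : Pat m b) (i : ℕ)
    (hi : i ≤ p) :
    (i < p ∧ (i : ℤ) + comb m p a b i m = i + a i 0 - (if p = m + 1 ∧ i = 0 then 1 else 0)) ∨
      (i = p ∧ (i : ℤ) + comb m p a b i m = (p : ℤ) - m) := by
  rcases Nat.lt_or_ge i p with h | h
  · left
    refine ⟨h, ?_⟩
    rw [comb_c (by omega) hp ha i m h (le_refl m), Nat.sub_self]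
    by_cases h1 : p = m + 1 ∧ i = 0
    · rw [if_pos h1, if_pos ⟨h1.1, h1.2, rfl⟩]
      ring
    · rw [if_neg h1, if_neg (by omega)]
      ring
  · right
    have h1 : i = p := by omega
    refine ⟨h1, ?_⟩
    rw [comb_d (by omega) hp ha hb i m h (le_refl m), if_pos ⟨h1, rfl⟩, h1]
    ring

/-- a column left of `m` -/
theorem comb_col_lt (hm : 3 ≤ m) (hp : p = m ∨ p = m + 1) (ha : Pat p a) (i j : ℕ)
    (hj' : j < m) (hi : i + j ≤ m + p) :
    (i < p ∧ p < i + j ∧ comb m p a b i j = 0) ∨
      (i + j ≤ p ∧ comb m p a b i j = a i j) ∨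
      (∃ t, i = p + t ∧ t + j ≤ m ∧ comb m p a b i j = b t j) := by
  rcases Nat.lt_or_ge i p with h | h
  · rw [comb_a i j h hj']
    by_cases h1 : p < i + j
    · left
      exact ⟨h, h1, ha.z i j h1⟩
    · right
      left
      exact ⟨by omega, rfl⟩
  · right
    right
    refine ⟨i - p, by omega, by omega, ?_⟩
    exact comb_b ha (by omega) i j h hj'

theorem pat_comb (hm : 3 ≤ m) (hp : p = m ∨ p = m + 1) (ha : Pat p a) (hb : Pat m b) :
    Pat (m + p) (comb m p a b) := by
  have hp1 : 1 ≤ p := by omega
  constructor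
  · intro i j h
    unfold comb
    rw [ha.z i j (by omega), if_neg (by omega : ¬ (i = p ∧ j = m)),
      if_neg (by omega : ¬ (p = m + 1 ∧ i = 0 ∧ j = m))]
    have h1 : (if p ≤ i then b (i - p) j else 0) = 0 := by
      split_ifs with h2
      · exact hb.z _ _ (by omega)
      · rfl
    have h2 : (if m ≤ j then a i (j - m) else 0) = 0 := by
      split_ifs with h2
      · exact ha.z _ _ (by omega)
      · rfl
    rw [h1, h2]
    ring
  · rw [comb_a 0 0 (by omega) (by omega)]
    exact ha.u
  · rw [comb_col_gt hm hp ha 0 (m + p - 1) (by omega) (by omega)]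
    have h1 : m + p - 1 - m = p - 1 := by omega
    rw [h1]
    exact ha.v
  · intro j hj
    rcases Nat.lt_or_ge j m with h | h
    · rw [comb_a 0 j (by omega) h]
      have h1 := row_zero ha hp j h
      push_cast
      omega
    · obtain ⟨t, rfl⟩ := Nat.exists_eq_add_of_le h
      rw [comb_row_zero hm hp ha t (by omega)]
      have h1 := ha.r0 t (by omega)
      push_cast
      split_ifs <;> omega
  · intro j j' hj hj' he
    rcases Nat.lt_or_ge j m with h | h <;> rcases Nat.lt_or_ge j' m with h' | h'
    · rw [comb_a 0 j (by omega) h, comb_a 0 j' (by omega) h'] at he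
      exact ha.r0i j j' (by omega) (by omega) he
    · obtain ⟨t, rfl⟩ := Nat.exists_eq_add_of_le h'
      rw [comb_a 0 j (by omega) h, comb_row_zero hm hp ha t (by omega)] at he
      have h1 := row_zero ha hp j h
      have h2 := ha.r0 t (by omega)
      have h3 := row_one ha t (by omega)
      have h4 := ha.u
      by_cases h5 : t = 0
      · subst h5
        rw [h4] at he
        split_ifs at he <;> omega
      · rw [if_neg (by omega)] at he
        have h6 : (t : ℤ) + a 0 t ≠ 1 := fun h7 => h5 (h3 h7)
        omega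
    · obtain ⟨t, rfl⟩ := Nat.exists_eq_add_of_le h
      rw [comb_a 0 j' (by omega) h', comb_row_zero hm hp ha t (by omega)] at he
      have h1 := row_zero ha hp j' h'
      have h2 := ha.r0 t (by omega)
      have h3 := row_one ha t (by omega)
      have h4 := ha.u
      by_cases h5 : t = 0
      · subst h5
        rw [h4] at he
        split_ifs at he <;> omega
      · rw [if_neg (by omega)] at he
        have h6 : (t : ℤ) + a 0 t ≠ 1 := fun h7 => h5 (h3 h7)
        omega
    · obtain ⟨t, rfl⟩ := Nat.exists_eq_add_of_le h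
      obtain ⟨t', rfl⟩ := Nat.exists_eq_add_of_le h'
      rw [comb_row_zero hm hp ha t (by omega), comb_row_zero hm hp ha t' (by omega)] at he
      have h1 := ha.r0i t t' (by omega) (by omega)
      have h2 := ha.r0 t (by omega)
      have h2' := ha.r0 t' (by omega)
      have h3 := row_one ha t (by omega)
      have h3' := row_one ha t' (by omega)
      have h4 := ha.u
      by_cases h5 : t = 0 <;> by_cases h5' : t' = 0
      · omega
      · subst h5
        rw [h4, if_neg (by omega : ¬ (p = m + 1 ∧ t' = 0))] at he
        have h6 : (t' : ℤ) + a 0 t' ≠ 1 := fun h7 => h5' (h3' h7)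
        split_ifs at he <;> omega
      · subst h5'
        rw [h4, if_neg (by omega : ¬ (p = m + 1 ∧ t = 0))] at he
        have h6 : (t : ℤ) + a 0 t ≠ 1 := fun h7 => h5 (h3 h7)
        split_ifs at he <;> omega
      · rw [if_neg (by omega : ¬ (p = m + 1 ∧ t = 0)),
          if_neg (by omega : ¬ (p = m + 1 ∧ t' = 0))] at he
        have := h1 (by omega)
        omega
  · intro i j hi hij
    rcases Nat.lt_trichotomy i p with h | h | h
    · rcases Nat.lt_or_ge j m with h' | h'
      · rw [comb_a i j h h']
        have h1 := row_pos ha hp hm i j hi h'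
        by_cases h2 : p < i + j
        · rw [ha.z i j h2]
          push_cast
          omega
        · have h3 := ha.r i j hi (by omega)
          push_cast
          omega
      · obtain ⟨t, rfl⟩ := Nat.exists_eq_add_of_le h'
        rw [comb_row_pos hm hp ha i t hi h]
        have h3 := ha.r i t hi (by omega)
        push_cast
        omega
    · subst h
      rcases comb_row_p hm hp ha hb j (by omega) with ⟨h1, h2⟩ | ⟨h1, h2⟩
      · rw [h2]
        have h3 := hb.r0 j h1
        push_cast
        omega
      · rw [h2]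
        push_cast
        omega
    · rw [comb_row_gt hm hp ha i j h hij]
      have h1 := hb.r (i - p) j (by omega) (by omega)
      rw [Nat.cast_sub (by omega : p ≤ i)] at h1
      push_cast
      omega
  · intro i j j' hi hij hij' he
    rcases Nat.lt_trichotomy i p with h | h | h
    · rcases Nat.lt_or_ge j m with g | g <;> rcases Nat.lt_or_ge j' m with g' | g'
      · rw [comb_a i j h g, comb_a i j' h g'] at he
        by_cases h2 : p < i + j <;> by_cases h2' : p < i + j'
        · rw [ha.z i j h2, ha.z i j' h2'] at he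
          omega
        · rw [ha.z i j h2] at he
          have h3 := ha.r i j' hi (by omega)
          omega
        · rw [ha.z i j' h2'] at he
          have h3 := ha.r i j hi (by omega)
          omega
        · exact ha.ri i j j' hi (by omega) (by omega) he
      · obtain ⟨t, rfl⟩ := Nat.exists_eq_add_of_le g'
        rw [comb_a i j h g, comb_row_pos hm hp ha i t hi h] at he
        have h1 := row_pos ha hp hm i j hi g
        have h3 := ha.r i t hi (by omega)
        omega
      · obtain ⟨t, rfl⟩ := Nat.exists_eq_add_of_le g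
        rw [comb_a i j' h g', comb_row_pos hm hp ha i t hi h] at he
        have h1 := row_pos ha hp hm i j' hi g'
        have h3 := ha.r i t hi (by omega)
        omega
      · obtain ⟨t, rfl⟩ := Nat.exists_eq_add_of_le g
        obtain ⟨t', rfl⟩ := Nat.exists_eq_add_of_le g'
        rw [comb_row_pos hm hp ha i t hi h, comb_row_pos hm hp ha i t' hi h] at he
        have := ha.ri i t t' hi (by omega) (by omega) (by omega)
        omega
    · subst h
      rcases comb_row_p hm hp ha hb j (by omega) with ⟨h1, h2⟩ | ⟨h1, h2⟩ <;>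
        rcases comb_row_p hm hp ha hb j' (by omega) with ⟨h1', h2'⟩ | ⟨h1', h2'⟩ <;>
        rw [h2, h2'] at he
      · exact hb.r0i j j' h1 h1' he
      · have h3 := hb.r0 j h1
        omega
      · have h3 := hb.r0 j' h1'
        omega
      · omega
    · rw [comb_row_gt hm hp ha i j h hij, comb_row_gt hm hp ha i j' h hij'] at he
      exact hb.ri (i - p) j j' (by omega) (by omega) (by omega) he
  · intro i hi
    rcases Nat.lt_or_ge i p with h | h
    · rw [comb_a i 0 h (by omega)]
      have h1 := ha.c0 i h
      push_cast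
      omega
    · obtain ⟨t, rfl⟩ := Nat.exists_eq_add_of_le h
      rw [comb_b ha hp1 (p + t) 0 (by omega) (by omega), Nat.add_sub_cancel_left]
      have h1 := hb.c0 t (by omega)
      push_cast
      omega
  · intro i i' hi hi' he
    rcases Nat.lt_or_ge i p with h | h <;> rcases Nat.lt_or_ge i' p with h' | h'
    · rw [comb_a i 0 h (by omega), comb_a i' 0 h' (by omega)] at he
      exact ha.c0i i i' h h' he
    · obtain ⟨t, rfl⟩ := Nat.exists_eq_add_of_le h'
      rw [comb_a i 0 h (by omega), comb_b ha hp1 (p + t) 0 (by omega) (by omega),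
        Nat.add_sub_cancel_left] at he
      have h1 := hb.c0 t (by omega)
      have h2 := ha.c0 i h
      push_cast at he
      omega
    · obtain ⟨t, rfl⟩ := Nat.exists_eq_add_of_le h
      rw [comb_a i' 0 h' (by omega), comb_b ha hp1 (p + t) 0 (by omega) (by omega),
        Nat.add_sub_cancel_left] at he
      have h1 := hb.c0 t (by omega)
      have h2 := ha.c0 i' h'
      push_cast at he
      omega
    · obtain ⟨t, rfl⟩ := Nat.exists_eq_add_of_le h
      obtain ⟨t', rfl⟩ := Nat.exists_eq_add_of_le h'
      rw [comb_b ha hp1 (p + t) 0 (by omega) (by omega), Nat.add_sub_cancel_left,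
        comb_b ha hp1 (p + t') 0 (by omega) (by omega), Nat.add_sub_cancel_left] at he
      have := hb.c0i t t' (by omega) (by omega) (by push_cast at he; omega)
      omega
  · intro j i hj hij
    rcases Nat.lt_trichotomy j m with h | h | h
    · rcases comb_col_lt hm hp ha i j h hij with ⟨h1, h2, h3⟩ | ⟨h1, h3⟩ | ⟨t, h1, h2, h3⟩
      · rw [h3]
        push_cast
        omega
      · rw [h3]
        have h4 := ha.c j i hj h1
        push_cast
        omega
      · rw [h3]
        have h4 := hb.c j t hj h2
        subst h1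
        push_cast
        omega
    · subst h
      rcases comb_col_m hm hp ha hb i (by omega) with ⟨h1, h2⟩ | ⟨h1, h2⟩
      · rw [h2]
        have h3 := ha.c0 i h1
        push_cast
        split_ifs <;> omega
      · rw [h2]
        push_cast
        omega
    · rw [comb_col_gt hm hp ha i j h hij]
      have h1 := ha.c (j - m) i (by omega) (by omega)
      rw [Nat.cast_sub (by omega : m ≤ j)] at h1
      push_cast
      omega
  · intro j i i' hj hij hij' he
    rcases Nat.lt_trichotomy j m with h | h | h
    · rcases comb_col_lt hm hp ha i j h hij with ⟨h1, h2, h3⟩ | ⟨h1, h3⟩ | ⟨t, h1, h2, h3⟩ <;>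
        rcases comb_col_lt hm hp ha i' j h hij' with
          ⟨g1, g2, g3⟩ | ⟨g1, g3⟩ | ⟨t', g1, g2, g3⟩ <;>
        rw [h3, g3] at he
      · omega
      · have h4 := ha.c j i' hj g1
        omega
      · have h4 := hb.c j t' hj g2
        subst g1
        push_cast at he
        omega
      · have h4 := ha.c j i hj h1
        omega
      · exact ha.ci j i i' hj h1 g1 he
      · have h4 := ha.c j i hj h1
        have h5 := hb.c j t' hj g2
        subst g1
        push_cast at he
        omega
      · have h4 := hb.c j t hj h2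
        subst h1
        push_cast at he
        omega
      · have h4 := ha.c j i' hj g1
        have h5 := hb.c j t hj h2
        subst h1
        push_cast at he
        omega
      · subst h1
        subst g1
        have := hb.ci j t t' hj h2 g2 (by push_cast at he; omega)
        omega
    · subst h
      rcases comb_col_m hm hp ha hb i (by omega) with ⟨h1, h2⟩ | ⟨h1, h2⟩ <;>
        rcases comb_col_m hm hp ha hb i' (by omega) with ⟨g1, g2⟩ | ⟨g1, g2⟩ <;>
        rw [h2, g2] at he
      · have h3 := ha.c0 i h1
        have h3' := ha.c0 i' g1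
        have h4 := col_one ha i h1
        have h4' := col_one ha i' g1
        have h5 := ha.u
        by_cases h6 : i = 0 <;> by_cases h6' : i' = 0
        · omega
        · subst h6
          rw [h5, if_neg (by omega : ¬ (p = j + 1 ∧ i' = 0))] at he
          have h7 : (i' : ℤ) + a i' 0 ≠ 1 := fun h8 => h6' (h4' h8)
          split_ifs at he <;> omega
        · subst h6'
          rw [h5, if_neg (by omega : ¬ (p = j + 1 ∧ i = 0))] at he
          have h7 : (i : ℤ) + a i 0 ≠ 1 := fun h8 => h6 (h4 h8)
          split_ifs at he <;> omega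
        · rw [if_neg (by omega : ¬ (p = j + 1 ∧ i = 0)),
            if_neg (by omega : ¬ (p = j + 1 ∧ i' = 0))] at he
          exact ha.c0i i i' h1 g1 (by omega)
      · have h3 := ha.c0 i h1
        have h4 := col_one ha i h1
        have h5 := ha.u
        by_cases h6 : i = 0
        · subst h6
          rw [h5] at he
          split_ifs at he <;> omega
        · rw [if_neg (by omega : ¬ (p = j + 1 ∧ i = 0))] at he
          have h7 : (i : ℤ) + a i 0 ≠ 1 := fun h8 => h6 (h4 h8)
          omega
      · have h3 := ha.c0 i' g1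
        have h4 := col_one ha i' g1
        have h5 := ha.u
        by_cases h6 : i' = 0
        · subst h6
          rw [h5] at he
          split_ifs at he <;> omega
        · rw [if_neg (by omega : ¬ (p = j + 1 ∧ i' = 0))] at he
          have h7 : (i' : ℤ) + a i' 0 ≠ 1 := fun h8 => h6 (h4 h8)
          omega
      · omega
    · rw [comb_col_gt hm hp ha i j h hij, comb_col_gt hm hp ha i' j h hij'] at he
      exact ha.ci (j - m) i i' (by omega) (by omega) (by omega) he

end comb

end Pool.Agent.Lib.MP_f7b195_co
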