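import Pool.Agent.Lib.MP_f7b195_co.Cover

/-!
# The Latin square `i + j + δ_n(i,j)` modulo `n`, sums over plexes
-/

set_option autoImplicit false

open Finset

namespace Pool.Agent.Lib.MP_f7b195_co

/-! ### Sum of the defect -/

theorem sum_interval (n : ℕ) (g : ℕ → ℤ) (lo : ℤ) (h : ∀ j, j < n → lo ≤ g j ∧ g j < lo + n)
    (hi : ∀ j j', j < n → j' < n → g j = g j' → j = j') :
    ∑ j ∈ range n, g j = ∑ j ∈ range n, (lo + j) := by
  have h1 : (range n).image g = (range n).image (fun j : ℕ => lo + (j : ℤ)) := by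
    apply Finset.eq_of_subset_of_card_le
    · intro x hx
      rw [mem_image] at hx ⊢
      obtain ⟨j, hj, rfl⟩ := hx
      have := h j (mem_range.1 hj)
      refine ⟨(g j - lo).toNat, ?_, ?_⟩
      · rw [mem_range]
        omega
      · omega
    · rw [Finset.card_image_of_injOn, Finset.card_image_of_injOn]
      · intro a ha b hb hab
        exact hi a b (mem_range.1 ha) (mem_range.1 hb) hab
      · intro a _ b _ hab
        have : (lo + (a : ℤ)) = lo + b := hab
        omega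
  have h2 : ∑ x ∈ (range n).image g, x = ∑ j ∈ range n, g j :=
    Finset.sum_image (fun a ha b hb hab => hi a b (mem_range.1 ha) (mem_range.1 hb) hab)
  have h3 : ∑ x ∈ (range n).image (fun j : ℕ => lo + (j : ℤ)), x = ∑ j ∈ range n, (lo + (j : ℤ)) :=
    Finset.sum_image (fun a _ b _ hab => by
      have : (lo + (a : ℤ)) = lo + b := hab
      omega)
  rw [← h2, h1, h3]

theorem sum_row_zero {n : ℕ} {f : ℕ → ℕ → ℤ} (hf : Pat n f) : ∑ j ∈ range n, f 0 j = n := by
  have h := sum_interval n (fun j => (j : ℤ) + f 0 j) 1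
    (fun j hj => by
      have := hf.r0 j hj
      omega)
    (fun j j' hj hj' he => hf.r0i j j' hj hj' he)
  rw [Finset.sum_add_distrib, Finset.sum_add_distrib] at h
  simp only [Finset.sum_const, Finset.card_range, nsmul_eq_mul, mul_one] at h
  omega

theorem sum_row_pos {n : ℕ} {f : ℕ → ℕ → ℤ} (hf : Pat n f) (i : ℕ) (hi : 1 ≤ i) :
    ∑ j ∈ range n, f i j = 0 := by
  have h := sum_interval n (fun j => (j : ℤ) + f i j) 0
    (fun j hj => by
      by_cases h1 : n < i + j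
      · rw [hf.z i j h1]
        omega
      · have := hf.r i j hi (by omega)
        omega)
    (fun j j' hj hj' he => by
      by_cases h1 : n < i + j <;> by_cases h2 : n < i + j'
      · rw [hf.z i j h1, hf.z i j' h2] at he
        omega
      · rw [hf.z i j h1] at he
        have := hf.r i j' hi (by omega)
        omega
      · rw [hf.z i j' h2] at he
        have := hf.r i j hi (by omega)
        omega
      · exact hf.ri i j j' hi (by omega) (by omega) he)
  rw [Finset.sum_add_distrib] at h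
  simp only [zero_add] at h
  omega

theorem sum_all {n : ℕ} {f : ℕ → ℕ → ℤ} (hf : Pat n f) (hn : 1 ≤ n) :
    ∑ i ∈ range n, ∑ j ∈ range n, f i j = n := by
  obtain ⟨k, rfl⟩ := Nat.exists_eq_add_of_le hn
  rw [Finset.sum_range_add, Finset.sum_range_one, sum_row_zero hf]
  have h : ∑ x ∈ range k, ∑ j ∈ range (1 + k), f (1 + x) j = 0 := by
    apply Finset.sum_eq_zero
    intro x hx
    rw [mem_range] at hx
    exact sum_row_pos hf (1 + x) (by omega)
  rw [h]
  ring

/-! ### The Latin square -/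

/-- the entry before reduction modulo `n` -/
def V (n i j : ℕ) : ℤ := (i : ℤ) + j + del n i j

/-- the Latin square of order `n` -/
def Lsq (n : ℕ) (i j : Fin n) : Fin n :=
  ⟨(V n i.1 j.1 % n).toNat, by
    have h0 : 0 < n := i.pos
    have h1 := Int.emod_nonneg (V n i.1 j.1) (by omega : (n : ℤ) ≠ 0)
    have h2 := Int.emod_lt_of_pos (V n i.1 j.1) (by omega : (0 : ℤ) < n)
    omega⟩

theorem Lsq_val (n : ℕ) (i j : Fin n) : ((Lsq n i j).1 : ℤ) = V n i.1 j.1 % n := by
  have h0 : 0 < n := i.pos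
  have h1 := Int.emod_nonneg (V n i.1 j.1) (by omega : (n : ℤ) ≠ 0)
  show (((V n i.1 j.1 % n).toNat : ℕ) : ℤ) = V n i.1 j.1 % n
  omega

theorem eq_of_emod_eq (n : ℕ) (x y lo : ℤ) (hx : lo ≤ x ∧ x < lo + n) (hy : lo ≤ y ∧ y < lo + n)
    (h : x % n = y % n) : x = y := by
  have h1 : (n : ℤ) ∣ x - y := by
    have := Int.emod_emod_of_dvd
    exact (Int.emod_eq_emod_iff_emod_sub_eq_zero.1 h) |> Int.dvd_of_emod_eq_zero
  obtain ⟨q, hq⟩ := h1
  have h2 : q = 0 := by
    by_contra hne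
    rcases lt_or_gt_of_ne hne with hlt | hgt
    · have : (n : ℤ) * q ≤ n * (-1) := mul_le_mul_of_nonneg_left (by omega) (by omega)
      omega
    · have : (n : ℤ) * 1 ≤ n * q := mul_le_mul_of_nonneg_left (by omega) (by omega)
      omega
  rw [h2, mul_zero] at hq
  omega

theorem Lsq_row (n : ℕ) (hn : 3 ≤ n) (i : Fin n) : Function.Injective (Lsq n i) := by
  intro j j' h
  have hf := pat_del n hn
  have h1 := Lsq_val n i j
  have h2 := Lsq_val n i j'
  rw [h, h2] at h1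
  unfold V at h1
  apply Fin.ext
  have hi := i.2
  have hj := j.2
  have hj' := j'.2
  rcases Nat.eq_zero_or_pos i.1 with h0 | h0
  · rw [h0] at h1
    have r1 := hf.r0 j.1 hj
    have r2 := hf.r0 j'.1 hj'
    have h3 := eq_of_emod_eq n _ _ 1 (by push_cast; omega) (by push_cast; omega) h1
    exact hf.r0i j.1 j'.1 hj hj' (by push_cast at h3; omega)
  · have key : ∀ k : Fin n, (i.1 : ℤ) ≤ (i.1 : ℤ) + k.1 + del n i.1 k.1 ∧
        (i.1 : ℤ) + k.1 + del n i.1 k.1 < (i.1 : ℤ) + n := by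
      intro k
      have hk := k.2
      by_cases h4 : n < i.1 + k.1
      · rw [hf.z _ _ h4]
        omega
      · have := hf.r i.1 k.1 h0 (by omega)
        omega
    have h3 := eq_of_emod_eq n _ _ (i.1 : ℤ) (key j') (key j) h1
    by_cases h4 : n < i.1 + j.1 <;> by_cases h5 : n < i.1 + j'.1
    · rw [hf.z _ _ h4, hf.z _ _ h5] at h3
      omega
    · rw [hf.z _ _ h4] at h3
      have := hf.r i.1 j'.1 h0 (by omega)
      omega
    · rw [hf.z _ _ h5] at h3
      have := hf.r i.1 j.1 h0 (by omega)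
      omega
    · exact hf.ri i.1 j.1 j'.1 h0 (by omega) (by omega) (by omega)

theorem Lsq_col (n : ℕ) (hn : 3 ≤ n) (j : Fin n) : Function.Injective (fun i => Lsq n i j) := by
  intro i i' h
  have hf := pat_del n hn
  have h1 := Lsq_val n i j
  have h2 := Lsq_val n i' j
  simp only at h
  rw [h, h2] at h1
  unfold V at h1
  apply Fin.ext
  have hj := j.2
  have hi := i.2
  have hi' := i'.2
  rcases Nat.eq_zero_or_pos j.1 with h0 | h0
  · rw [h0] at h1
    have r1 := hf.c0 i.1 hi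
    have r2 := hf.c0 i'.1 hi'
    have h3 := eq_of_emod_eq n _ _ 1 (by push_cast; omega) (by push_cast; omega) h1
    exact hf.c0i i.1 i'.1 hi hi' (by push_cast at h3; omega)
  · have key : ∀ k : Fin n, (j.1 : ℤ) ≤ (k.1 : ℤ) + j.1 + del n k.1 j.1 ∧
        (k.1 : ℤ) + j.1 + del n k.1 j.1 < (j.1 : ℤ) + n := by
      intro k
      have hk := k.2
      by_cases h4 : n < k.1 + j.1
      · rw [hf.z _ _ h4]
        omega
      · have := hf.c j.1 k.1 h0 (by omega)
        omega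
    have h3 := eq_of_emod_eq n _ _ (j.1 : ℤ) (key i') (key i) h1
    by_cases h4 : n < i.1 + j.1 <;> by_cases h5 : n < i'.1 + j.1
    · rw [hf.z _ _ h4, hf.z _ _ h5] at h3
      omega
    · rw [hf.z _ _ h4] at h3
      have := hf.c j.1 i'.1 h0 (by omega)
      omega
    · rw [hf.z _ _ h5] at h3
      have := hf.c j.1 i.1 h0 (by omega)
      omega
    · exact hf.ci j.1 i.1 i'.1 h0 (by omega) (by omega) (by omega)

/-! ### Plexes -/

/-- a `k`-plex: exactly `k` cells in every row, every column and for every symbol -/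
def IsPlex {n : ℕ} (L : Fin n → Fin n → Fin n) (k : ℕ) (D : Finset (Fin n × Fin n)) : Prop :=
  (∀ r : Fin n, (D.filter (fun c => c.1 = r)).card = k) ∧
  (∀ s : Fin n, (D.filter (fun c => c.2 = s)).card = k) ∧
  ∀ v : Fin n, (D.filter (fun c => L c.1 c.2 = v)).card = k

theorem sum_fib {n k : ℕ} (D : Finset (Fin n × Fin n)) (π : Fin n × Fin n → Fin n)
    (h : ∀ r : Fin n, (D.filter (fun c => π c = r)).card = k) (w : Fin n → ℤ) :
    ∑ c ∈ D, w (π c) = k * ∑ r, w r := by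
  rw [← Finset.sum_fiberwise_of_maps_to (s := D) (t := Finset.univ) (g := π)
    (fun _ _ => Finset.mem_univ _), Finset.mul_sum]
  refine Finset.sum_congr rfl (fun r _ => ?_)
  have h1 : ∀ c ∈ D.filter (fun c => π c = r), w (π c) = w r := fun c hc => by
    rw [(Finset.mem_filter.1 hc).2]
  rw [Finset.sum_congr rfl h1, Finset.sum_const, h r]
  ring

/-- the defect of a cell -/
def dZ {n : ℕ} (c : Fin n × Fin n) : ℤ := del n c.1.1 c.2.1

theorem dZ_mod {n : ℕ} (c : Fin n × Fin n) :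
    ∃ q : ℤ, dZ c = ((Lsq n c.1 c.2).1 : ℤ) - c.1.1 - c.2.1 + n * q := by
  refine ⟨V n c.1.1 c.2.1 / n, ?_⟩
  have h1 := Lsq_val n c.1 c.2
  have h2 : dZ c = V n c.1.1 c.2.1 - c.1.1 - c.2.1 := by
    unfold dZ V
    ring
  have h3 := Int.emod_add_mul_ediv (V n c.1.1 c.2.1) n
  rw [h2, h1]
  linarith

/-- the sum of the defects over a duplex is divisible by `n` -/
theorem duplex_dvd {n : ℕ} (D : Finset (Fin n × Fin n)) (hD : IsPlex (Lsq n) 2 D) :
    (n : ℤ) ∣ ∑ c ∈ D, dZ c := by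
  choose q hq using (dZ_mod (n := n))
  have h1 : ∑ c ∈ D, dZ c = 2 * ∑ r : Fin n, ((r.1 : ℕ) : ℤ) - 2 * ∑ r : Fin n, ((r.1 : ℕ) : ℤ)
      - 2 * ∑ r : Fin n, ((r.1 : ℕ) : ℤ) + n * ∑ c ∈ D, q c := by
    rw [Finset.sum_congr rfl (fun c _ => hq c), Finset.sum_add_distrib, Finset.sum_sub_distrib,
      Finset.sum_sub_distrib,
      sum_fib D (fun c => c.1) hD.1 (fun r => ((r.1 : ℕ) : ℤ)),
      sum_fib D (fun c => c.2) hD.2.1 (fun r => ((r.1 : ℕ) : ℤ)),
      sum_fib D (fun c => Lsq n c.1 c.2) hD.2.2 (fun r => ((r.1 : ℕ) : ℤ)), ← Finset.mul_sum]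
    push_cast
    ring
  have h2 : 2 * ∑ r : Fin n, ((r.1 : ℕ) : ℤ) = n * (n - 1) := by
    have h3 : ∑ r : Fin n, r.1 = ∑ i ∈ range n, i := (Finset.sum_range (fun i => i)).symm
    have h4 := Finset.sum_range_id_mul_two n
    rw [← h3] at h4
    have h5 : (((∑ r : Fin n, r.1) * 2 : ℕ) : ℤ) = ((n * (n - 1) : ℕ) : ℤ) := by rw [h4]
    rcases Nat.eq_zero_or_pos n with h6 | h6
    · subst h6
      simp
    · rw [Nat.cast_mul, Nat.cast_mul, Nat.cast_sub h6] at h5
      push_cast at h5 ⊢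
      linarith
  rw [h1, h2]
  exact ⟨-(n - 1) + ∑ c ∈ D, q c, by ring⟩

/-! ### Weights -/

/-- the weight of a line of the square -/
def Gw (n i : ℕ) : ℕ := ∑ e ∈ range (dep n + 6), (if e ≤ i then wt n (i - e) else 0)

theorem le_Gw (n i x : ℕ) (h1 : x ≤ i) (h2 : i ≤ x + (dep n + 5)) : wt n x ≤ Gw n i := by
  unfold Gw
  have h3 : wt n x = (fun e => if e ≤ i then wt n (i - e) else 0) (i - x) := by
    simp only
    rw [if_pos (by omega), Nat.sub_sub_self h1]
  rw [h3]
  exact Finset.single_le_sum (f := fun e => if e ≤ i then wt n (i - e) else 0)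
    (fun e _ => Nat.zero_le _) (mem_range.2 (by omega))

theorem sum_Gw (n : ℕ) : ∑ i : Fin n, Gw n i.1 ≤ (dep n + 6) * 3 ^ dep n := by
  rw [← Finset.sum_range (fun i => Gw n i)]
  unfold Gw
  rw [Finset.sum_comm]
  calc ∑ e ∈ range (dep n + 6), ∑ i ∈ range n, (if e ≤ i then wt n (i - e) else 0)
      ≤ ∑ _e ∈ range (dep n + 6), 3 ^ dep n := by
        refine Finset.sum_le_sum (fun e _ => ?_)
        exact le_trans (sum_shift (wt n) e n) (sum_wt n n)
    _ = (dep n + 6) * 3 ^ dep n := by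
        rw [Finset.sum_const, Finset.card_range, smul_eq_mul]

/-- the reflection of the symbols -/
def refl {n : ℕ} (v : Fin n) : Fin n := ⟨(n - v.1) % n, Nat.mod_lt _ v.pos⟩

theorem refl_refl {n : ℕ} (v : Fin n) : refl (refl v) = v := by
  apply Fin.ext
  have hv := v.2
  show (n - (n - v.1) % n) % n = v.1
  rcases Nat.eq_zero_or_pos v.1 with h | h
  · rw [h, Nat.sub_zero, Nat.mod_self, Nat.sub_zero, Nat.mod_self]
  · rw [Nat.mod_eq_of_lt (show n - v.1 < n by omega), Nat.sub_sub_self (by omega),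
      Nat.mod_eq_of_lt hv]

theorem sum_Gw_refl (n : ℕ) : ∑ v : Fin n, Gw n (refl v).1 = ∑ i : Fin n, Gw n i.1 := by
  have hb : Function.Bijective (refl : Fin n → Fin n) := by
    constructor
    · intro a b h
      have := congrArg refl h
      rwa [refl_refl, refl_refl] at this
    · intro a
      exact ⟨refl a, refl_refl a⟩
  exact Function.Bijective.sum_comp hb (fun v => Gw n v.1)

theorem dZ_le {n : ℕ} (hn : 3 ≤ n) (c : Fin n × Fin n) :
    dZ c * (4 ^ (dep n / 3) : ℕ) ≤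
      6 * ((Gw n c.1.1 : ℤ) + Gw n c.2.1 + Gw n (refl (Lsq n c.1 c.2)).1) := by
  rcases le_or_gt (dZ c) 0 with h | h
  · have h1 : dZ c * (4 ^ (dep n / 3) : ℕ) ≤ 0 :=
      mul_nonpos_of_nonpos_of_nonneg h (by positivity)
    have h2 : (0 : ℤ) ≤ 6 * ((Gw n c.1.1 : ℤ) + Gw n c.2.1 + Gw n (refl (Lsq n c.1 c.2)).1) := by
      positivity
    exact le_trans h1 h2
  · have hp : 0 < del n c.1.1 c.2.1 := h
    obtain ⟨x, y, z, h1, h2, h3, h4, h5, h6, h7, h8⟩ := cov n n hn (Or.inl rfl) c.1.1 c.2.1 hp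
    have hb := pos_bound n hn _ _ hp
    have hv := Lsq_val n c.1 c.2
    have hs : ((refl (Lsq n c.1 c.2)).1 : ℤ) = n - (c.1.1 + c.2.1 + del n c.1.1 c.2.1) := by
      unfold V at hv
      show (((n - (Lsq n c.1 c.2).1) % n : ℕ) : ℤ) = _
      rcases eq_or_lt_of_le hb with h9 | h9
      · rw [h9, Int.emod_self] at hv
        have h10 : (Lsq n c.1 c.2).1 = 0 := by omega
        rw [h10, Nat.sub_zero, Nat.mod_self, h9]
        norm_num
      · rw [Int.emod_eq_of_lt (by omega) h9] at hv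
        rw [Nat.mod_eq_of_lt (by omega), Nat.cast_sub (by omega), hv]
    have hx := le_Gw n c.1.1 x h2 h3
    have hy := le_Gw n c.2.1 y h4 h5
    have hz := le_Gw n (refl (Lsq n c.1 c.2)).1 z (by omega) (by omega)
    have hmax : 4 ^ (dep n / 3) ≤ wt n x ∨ 4 ^ (dep n / 3) ≤ wt n y ∨ 4 ^ (dep n / 3) ≤ wt n z := by
      by_contra hcon
      push Not at hcon
      obtain ⟨a1, a2, a3⟩ := hcon
      have h11 : wt n x * wt n y * wt n z < 4 ^ (dep n / 3) * 4 ^ (dep n / 3) * 4 ^ (dep n / 3) := by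
        apply Nat.mul_lt_mul_of_le_of_lt _ a3
        · positivity
        · exact Nat.mul_le_mul a1.le a2.le
      have h12 : 4 ^ (dep n / 3) * 4 ^ (dep n / 3) * 4 ^ (dep n / 3) ≤ 4 ^ dep n := by
        rw [← pow_add, ← pow_add]
        exact Nat.pow_le_pow_right (by norm_num) (by omega)
      omega
    have h13 : (4 ^ (dep n / 3) : ℕ) ≤ Gw n c.1.1 + Gw n c.2.1 + Gw n (refl (Lsq n c.1 c.2)).1 := by
      rcases hmax with h14 | h14 | h14 <;> omega
    have h15 : dZ c ≤ 6 := h8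
    calc dZ c * (4 ^ (dep n / 3) : ℕ) ≤ 6 * ((4 ^ (dep n / 3) : ℕ) : ℤ) :=
          mul_le_mul_of_nonneg_right h15 (by positivity)
      _ ≤ _ := by
          apply mul_le_mul_of_nonneg_left _ (by norm_num)
          exact_mod_cast h13

/-- the sum of the defects over a `k`-plex -/
theorem plex_le {n k : ℕ} (hn : 3 ≤ n) (D : Finset (Fin n × Fin n)) (hD : IsPlex (Lsq n) k D) :
    (∑ c ∈ D, dZ c) * (4 ^ (dep n / 3) : ℕ) ≤ (18 * k * ((dep n + 6) * 3 ^ dep n) : ℕ) := by
  have hS : (∑ i : Fin n, (Gw n i.1 : ℤ)) ≤ (((dep n + 6) * 3 ^ dep n : ℕ) : ℤ) := by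
    exact_mod_cast sum_Gw n
  have hS' : (∑ v : Fin n, (Gw n (refl v).1 : ℤ)) ≤ (((dep n + 6) * 3 ^ dep n : ℕ) : ℤ) := by
    have := sum_Gw_refl n
    have h2 : (∑ v : Fin n, (Gw n (refl v).1 : ℤ)) = ∑ i : Fin n, (Gw n i.1 : ℤ) := by
      exact_mod_cast this
    rw [h2]
    exact hS
  rw [Finset.sum_mul]
  calc ∑ c ∈ D, dZ c * (4 ^ (dep n / 3) : ℕ)
      ≤ ∑ c ∈ D, 6 * ((Gw n c.1.1 : ℤ) + Gw n c.2.1 + Gw n (refl (Lsq n c.1 c.2)).1) :=
        Finset.sum_le_sum (fun c _ => dZ_le hn c)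
    _ = 6 * (k * ∑ r : Fin n, (Gw n r.1 : ℤ) + k * ∑ r : Fin n, (Gw n r.1 : ℤ)
          + k * ∑ v : Fin n, (Gw n (refl v).1 : ℤ)) := by
        rw [← Finset.mul_sum, Finset.sum_add_distrib, Finset.sum_add_distrib,
          sum_fib D (fun c => c.1) hD.1 (fun r => (Gw n r.1 : ℤ)),
          sum_fib D (fun c => c.2) hD.2.1 (fun r => (Gw n r.1 : ℤ)),
          sum_fib D (fun c => Lsq n c.1 c.2) hD.2.2 (fun r => (Gw n (refl r).1 : ℤ))]
    _ ≤ 6 * (k * (((dep n + 6) * 3 ^ dep n : ℕ) : ℤ) + k * (((dep n + 6) * 3 ^ dep n : ℕ) : ℤ)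
          + k * (((dep n + 6) * 3 ^ dep n : ℕ) : ℤ)) := by
        have hk : (0 : ℤ) ≤ k := by positivity
        have e1 := mul_le_mul_of_nonneg_left hS hk
        have e2 := mul_le_mul_of_nonneg_left hS' hk
        linarith
    _ = (18 * k * ((dep n + 6) * 3 ^ dep n) : ℕ) := by
        push_cast
        ring

end Pool.Agent.Lib.MP_f7b195_co
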